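import Pool.Agent.Q269.SX.St

set_option autoImplicit false
set_option linter.all false

open scoped Classical
open Polynomial IsDedekindDomain Finset

namespace Pool.Agent.Q211.SX

open Pool.Agent.Q269.SX

theorem t_IDL : S_IDL := by
  intro n F _ D U R hU hdvd hev
  have h2 : (2 : F) ≠ 0 := by
    have := D.hne
    exact_mod_cast this
  have hζ : D.ζ = -1 := D.hζ.eq_neg_one_of_two_right
  have hsy : D.s 1 D.y = - D.y := by
    rw [D.s_y, pow_one, hζ, C_neg, C_1, map_neg, map_one, neg_one_mul]
  have hy2 : D.y ^ 2 = algebraMap F[X] D.A D.f := D.y_pow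
  obtain ⟨V, hV⟩ := hdvd
  set u := algebraMap F[X] D.A U with hu
  set r := algebraMap F[X] D.A R with hr
  have hu0 : u ≠ 0 := D.alg_ne hU.ne_zero
  have hI0 : (Ideal.span {u, D.y - r} : Ideal D.A) ≠ ⊥ := by
    intro h
    apply hu0
    have h1 : u ∈ (Ideal.span {u, D.y - r} : Ideal D.A) :=
      Ideal.subset_span (Set.mem_insert _ _)
    rw [h, Ideal.mem_bot] at h1
    exact h1
  have hsI : D.sI 1 (Ideal.span {u, D.y - r}) = Ideal.span {u, -D.y - r} := by
    unfold Pool.Agent.Y713.SE.Dat.sI
    rw [Ideal.map_span, Set.image_pair, map_sub, hsy, hu, hr]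
    rw [AlgEquiv.commutes, AlgEquiv.commutes]
  have hNI : D.NI (Ideal.span {u, D.y - r}) =
      Ideal.span {u * u, u * (-D.y - r), (D.y - r) * u, (D.y - r) * (-D.y - r)} := by
    unfold Pool.Agent.Y713.SE.Dat.NI
    rw [Finset.prod_range_succ, Finset.prod_range_one, D.sI_zero, hsI,
      Ideal.span_pair_mul_span_pair]
  have hprod : (D.y - r) * (-D.y - r) = u * algebraMap F[X] D.A V := by
    have h3 := congrArg (algebraMap F[X] D.A) hV
    rw [map_sub, map_pow, map_mul, ← hy2] at h3
    rw [hu, ← h3]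
    ring
  have hcop : IsCoprime U D.f := by
    unfold Pool.Agent.Y713.SE.Dat.f
    apply IsCoprime.mul_right
    · exact isCoprime_one_right.of_isCoprime_of_dvd_right
        ((isUnit_C.2 (isUnit_iff_ne_zero.2 D.hδ)).dvd)
    · apply IsCoprime.prod_right
      intro i _
      apply IsCoprime.symm
      rw [(irreducible_X_sub_C (D.e i)).coprime_iff_not_dvd, dvd_iff_isRoot]
      exact hev i
  obtain ⟨p, q, hpq⟩ := hcop
  refine ⟨Ideal.span {u, D.y - r}, hI0, D.U_eq_of hU ?_⟩
  rw [hNI]
  apply le_antisymm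
  · rw [Ideal.span_le]
    intro x hx
    simp only [Set.mem_insert_iff, Set.mem_singleton_iff] at hx
    show x ∈ Ideal.span {u}
    rw [Ideal.mem_span_singleton]
    rcases hx with rfl | rfl | rfl | rfl
    · exact dvd_mul_right _ _
    · exact dvd_mul_right _ _
    · exact dvd_mul_left _ _
    · rw [hprod]; exact dvd_mul_right _ _
  · rw [Ideal.span_singleton_le_iff_mem]
    set J : Ideal D.A :=
      Ideal.span {u * u, u * (-D.y - r), (D.y - r) * u, (D.y - r) * (-D.y - r)} with hJ
    have m1 : u * u ∈ J := Ideal.subset_span (by simp)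
    have m2 : u * (-D.y - r) ∈ J := Ideal.subset_span (by simp)
    have m3 : (D.y - r) * u ∈ J := Ideal.subset_span (by simp)
    have e1 : algebraMap F[X] D.A (C (2⁻¹ : F)) * 2 = 1 := by
      have : (2 : D.A) = algebraMap F[X] D.A (C 2) := by
        rw [show (C (2 : F) : F[X]) = 2 from rfl, map_ofNat]
      rw [this, ← map_mul, ← C_mul, inv_mul_cancel₀ h2, C_1, map_one]
    have e2 := congrArg (algebraMap F[X] D.A) hpq
    rw [map_add, map_mul, map_mul, map_one, ← hy2, ← hu] at e2
    have e3 : u = algebraMap F[X] D.A p * (u * u) + algebraMap F[X] D.A q * (D.y *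
        (algebraMap F[X] D.A (C (2⁻¹ : F)) * ((D.y - r) * u - u * (-D.y - r)))) := by
      calc u = (algebraMap F[X] D.A p * u + algebraMap F[X] D.A q * D.y ^ 2) * u := by
            rw [e2, one_mul]
        _ = algebraMap F[X] D.A p * (u * u) + algebraMap F[X] D.A q * (D.y * (D.y * u *
              (algebraMap F[X] D.A (C (2⁻¹ : F)) * 2))) := by rw [e1]; ring
        _ = _ := by ring
    show u ∈ J
    rw [e3]
    exact J.add_mem (J.mul_mem_left _ m1) (J.mul_mem_left _ (J.mul_mem_left _
      (J.mul_mem_left _ (J.sub_mem m3 m2))))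

end Pool.Agent.Q211.SX
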