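import Pool.Agent.Q269.SX.St

set_option autoImplicit false
set_option linter.all false

open scoped Classical
open Polynomial IsDedekindDomain Finset

namespace Pool.Agent.Q211.SX

open Pool.Agent.Q269.SX
open Pool.Agent.Y713.SE (hp Pw cl cl_mul cl_top cl_eq_iff exists_cl)
open Pool.Agent.Y713.SE.Dat (au rs)

/-- the ratio of the leading coefficients under an automorphism -/
lemma key_lead {ℓ n : ℕ} {K : Type} [Field K] (D : SD ℓ n K) {F Ω : Type} [Field F] [Algebra K F]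
    [Field Ω] [Algebra K Ω] [Algebra F Ω] [IsScalarTower K F Ω] {τ : Ω ≃ₐ[F] Ω} {m : Fin n → ℕ}
    {B I : Ideal (D.base Ω).A} (hB : B ≠ ⊥) (hI : I ≠ ⊥) (hinv : D.mI (rs K τ) B = B)
    (h1 : D.mC (rs K τ) (cl I) = cl I * cl ((D.base Ω).PT m)) {a b : (D.base Ω).A}
    (ha : a ≠ 0) (hb : b ≠ 0)
    (hab : Ideal.span {b} * (B * (D.base Ω).sI 1 I) = Ideal.span {a} * I) :
    ∃ κ : Ω, κ ≠ 0 ∧ ∀ k : Fin n,
      τ ((D.base Ω).lead k a) * (D.base Ω).lead k b * (κ * (D.base Ω).ζ ^ m k) =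
        τ ((D.base Ω).lead k b) * (D.base Ω).lead k a := by
  rw [D.mC_cl _ hI, ← cl_mul hI ((D.base Ω).PT_ne _)] at h1
  obtain ⟨p, q, hp, hq, hpq⟩ := (cl_eq_iff (D.mI_ne _ hI)
    ((D.base Ω).mul_ne hI ((D.base Ω).PT_ne _))).1 h1
  have h2 := congrArg (D.mI (rs K τ)) hab
  rw [D.mI_mul, D.mI_mul, D.mI_mul, D.mI_span, D.mI_span, hinv, D.mI_sI] at h2
  have h3 := congrArg ((D.base Ω).sI 1) hpq
  rw [(D.base Ω).sI_mul, (D.base Ω).sI_mul, (D.base Ω).sI_mul, (D.base Ω).sI_span,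
    (D.base Ω).sI_span, (D.base Ω).sI_PT] at h3
  have hta := D.mp_ne (rs K τ) ha
  have htb := D.mp_ne (rs K τ) hb
  have hsp : (D.base Ω).s 1 p ≠ 0 := (map_ne_zero_iff _ ((D.base Ω).s 1).injective).2 hp
  have hsq : (D.base Ω).s 1 q ≠ 0 := (map_ne_zero_iff _ ((D.base Ω).s 1).injective).2 hq
  -- the key ideal identity
  have h4 : Ideal.span {D.mp (rs K τ) a * (D.base Ω).s 1 p * q * b} =
      Ideal.span {D.mp (rs K τ) b * p * (D.base Ω).s 1 q * a} := by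
    have hne : (B * (D.base Ω).sI 1 I) * (D.base Ω).PT m ≠ ⊥ :=
      (D.base Ω).mul_ne ((D.base Ω).mul_ne hB ((D.base Ω).sI_ne hI)) ((D.base Ω).PT_ne _)
    apply mul_right_cancel₀ hne
    simp only [← Ideal.span_singleton_mul_span_singleton]
    generalize (D.base Ω).sI 1 I = sI at *
    generalize D.mI (rs K τ) I = tI at *
    generalize (D.base Ω).PT m = T at *
    generalize (D.base Ω).sI 1 tI = stI at *
    generalize Ideal.span {D.mp (rs K τ) a} = ta at *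
    generalize Ideal.span {D.mp (rs K τ) b} = tb at *
    generalize Ideal.span {(D.base Ω).s 1 p} = sp at *
    generalize Ideal.span {(D.base Ω).s 1 q} = sq at *
    generalize Ideal.span {a} = a' at *
    generalize Ideal.span {b} = b' at *
    generalize Ideal.span {p} = p' at *
    generalize Ideal.span {q} = q' at *
    calc ta * sp * q' * b' * (B * sI * T) = ta * sp * q' * (b' * (B * sI)) * T := by ring
      _ = ta * sp * q' * (a' * I) * T := by rw [hab]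
      _ = ta * sp * a' * (q' * (I * T)) := by ring
      _ = ta * sp * a' * (p' * tI) := by rw [hpq]
      _ = sp * a' * p' * (ta * tI) := by ring
      _ = sp * a' * p' * (tb * (B * stI)) := by rw [h2]
      _ = a' * p' * tb * B * (sp * stI) := by ring
      _ = a' * p' * tb * B * (sq * (sI * T)) := by rw [h3]
      _ = _ := by ring
  rw [Ideal.span_singleton_eq_span_singleton] at h4
  obtain ⟨u, hu⟩ := h4
  obtain ⟨κ, hκ, huκ⟩ := (D.base Ω).unit_const u.isUnit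
  rw [huκ] at hu
  have hκA := (D.base Ω).alg_ne (C_ne_zero.2 hκ)
  refine ⟨κ, hκ, fun k => ?_⟩
  have h5 := congrArg ((D.base Ω).lead k) hu
  rw [(D.base Ω).lead_mul k (mul_ne_zero (mul_ne_zero (mul_ne_zero hta hsp) hq) hb) hκA,
    (D.base Ω).lead_mul k (mul_ne_zero (mul_ne_zero hta hsp) hq) hb,
    (D.base Ω).lead_mul k (mul_ne_zero hta hsp) hq, (D.base Ω).lead_mul k hta hsp,
    (D.base Ω).lead_mul k (mul_ne_zero (mul_ne_zero htb hp) hsq) ha,
    (D.base Ω).lead_mul k (mul_ne_zero htb hp) hsq, (D.base Ω).lead_mul k htb hp,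
    (D.base Ω).lead_C k hκ, (D.base Ω).lead_s k hp, (D.base Ω).lead_s k hq,
    D.lead_mp _ k ha, D.lead_mp _ k hb, Pool.Agent.Y713.SE.Dat.rs_apply,
    Pool.Agent.Y713.SE.Dat.rs_apply, one_mul, one_mul] at h5
  have h6 : (D.base Ω).ord k p = (D.base Ω).ord k q + m k := by
    have h7 := congrArg ((D.base Ω).oI k) hpq
    rw [(D.base Ω).oI_mul k ((D.base Ω).span_ne hp) (D.mI_ne _ hI),
      (D.base Ω).oI_mul k ((D.base Ω).span_ne hq) ((D.base Ω).mul_ne hI ((D.base Ω).PT_ne _)),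
      (D.base Ω).oI_mul k hI ((D.base Ω).PT_ne _), (D.base Ω).oI_span k hp,
      (D.base Ω).oI_span k hq, D.oI_mI k _ hI, (D.base Ω).oI_PT] at h7
    omega
  have h8 : (D.base Ω).ζ ^ (D.base Ω).ord k q * (D.base Ω).lead k p * (D.base Ω).lead k q ≠ 0 :=
    mul_ne_zero (mul_ne_zero (pow_ne_zero _ (D.base Ω).ζ_ne) ((D.base Ω).lead_ne hp))
      ((D.base Ω).lead_ne hq)
  apply mul_left_cancel₀ h8
  rw [h6, pow_add] at h5
  linear_combination h5

/-- norms of the leading coefficients -/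
lemma norm_lead {ℓ n : ℕ} {E : Type} [Field E] (D : SD ℓ n E) {B I : Ideal D.A} (hB : B ≠ ⊥)
    (hI : I ≠ ⊥) (hU : ∀ i, (D.U B).eval (D.e i) ≠ 0) {a b : D.A} (ha : a ≠ 0) (hb : b ≠ 0)
    (hab : Ideal.span {b} * (B * D.sI 1 I) = Ideal.span {a} * I) :
    ∃ c : E, c ≠ 0 ∧ ∀ i, D.lead i b ^ ℓ * (D.U B).eval (D.e i) = c * D.lead i a ^ ℓ := by
  have hsI := D.sI_ne (j := 1) hI
  have h1 := congrArg D.U hab
  rw [D.U_mul (D.span_ne hb) (D.mul_ne hB hsI), D.U_mul hB hsI, D.U_mul (D.span_ne ha) hI,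
    D.U_sI 1 hI, ← mul_assoc] at h1
  have h2 := mul_right_cancel₀ (D.U_ne I) h1
  rw [D.U_span hb, D.U_span ha] at h2
  have hNa := D.Nm_ne ha
  have hNb := D.Nm_ne hb
  have hca : (D.Nm a).leadingCoeff⁻¹ ≠ 0 := inv_ne_zero (leadingCoeff_ne_zero.2 hNa)
  have hcb : (D.Nm b).leadingCoeff⁻¹ ≠ 0 := inv_ne_zero (leadingCoeff_ne_zero.2 hNb)
  refine ⟨(D.Nm a).leadingCoeff⁻¹ / (D.Nm b).leadingCoeff⁻¹, div_ne_zero hca hcb, fun i => ?_⟩
  have hord : D.ord i a = D.ord i b := by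
    have h3 := congrArg (D.oI i) hab
    have h4 : D.oI i B = 0 := by
      unfold Pool.Agent.Y713.SE.Dat.oI
      exact rootMultiplicity_eq_zero (hU i)
    rw [D.oI_mul i (D.span_ne hb) (D.mul_ne hB hsI), D.oI_mul i hB hsI,
      D.oI_mul i (D.span_ne ha) hI, D.oI_sI i 1 hI, D.oI_span i ha, D.oI_span i hb, h4] at h3
    omega
  have h5 := congrArg (D.lam i) h2
  rw [D.lam_mul i (mul_ne_zero hNb (C_ne_zero.2 hcb)) (D.U_ne B), D.lam_mul i hNb (C_ne_zero.2 hcb),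
    D.lam_mul i hNa (C_ne_zero.2 hca), D.lam_C i hcb, D.lam_C i hca, D.lead_Nm i ha,
    D.lead_Nm i hb, hord, D.lam_of_eval i (hU i)] at h5
  have hP : (∏ j ∈ Finset.range ℓ, D.ζ ^ (j * D.ord i b)) ≠ 0 :=
    Finset.prod_ne_zero_iff.2 fun j _ => pow_ne_zero _ D.ζ_ne
  apply mul_left_cancel₀ hP
  rw [div_mul_eq_mul_div, mul_div_assoc', eq_div_iff hcb]
  linear_combination h5

theorem t_KUM : S_KUM := by
  intro ℓ n K _ D F Ω _ _ _ _ _ _ _ p _ B hB hinv hU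
  obtain ⟨R, hR⟩ := (D.base Ω).phi_surj (p := p) (cl B)
  have hχ : ∀ τ : Ω ≃ₐ[F] Ω, ∃ m : Fin n → ℕ, D.mC (rs K τ) R = R * cl ((D.base Ω).PT m) := by
    intro τ
    have h1 := congrArg (D.mC (rs K τ)) hR
    rw [map_mul, D.mC_cl _ hB, hinv τ, D.mC_sC] at h1
    have h2 : (D.base Ω).sC (D.mC (rs K τ) R / R) = D.mC (rs K τ) R / R := by
      rw [_root_.map_div]
      rw [div_eq_div_iff_mul_eq_mul]
      apply mul_left_cancel (a := cl B)
      calc cl B * ((D.base Ω).sC (D.mC (rs K τ) R) * R) =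
          (cl B * (D.base Ω).sC (D.mC (rs K τ) R)) * R := by rw [mul_assoc]
        _ = D.mC (rs K τ) R * R := by rw [h1]
        _ = D.mC (rs K τ) R * (cl B * (D.base Ω).sC R) := by rw [hR]
        _ = _ := by rw [mul_left_comm]
    obtain ⟨m, hm⟩ := (D.base Ω).phi_ker (p := p) h2
    refine ⟨m, ?_⟩
    rw [(D.base Ω).cl_PT, ← hm, mul_div_cancel]
  choose χ hχ using hχ
  obtain ⟨I, hI, rfl⟩ := exists_cl R
  rw [(D.base Ω).sC_cl hI, ← cl_mul hB ((D.base Ω).sI_ne hI)] at hR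
  obtain ⟨b, a, hb, ha, hab⟩ := (cl_eq_iff ((D.base Ω).mul_ne hB ((D.base Ω).sI_ne hI)) hI).1 hR
  obtain ⟨c, hc, hN⟩ := norm_lead (D.base Ω) hB hI hU ha hb hab
  have hla : ∀ i, (D.base Ω).lead i a ≠ 0 := fun i => (D.base Ω).lead_ne ha
  have hlb : ∀ i, (D.base Ω).lead i b ≠ 0 := fun i => (D.base Ω).lead_ne hb
  refine ⟨cl I, χ, fun i => (D.base Ω).lead i b / (D.base Ω).lead i a, c, hχ, hc,
    fun i => div_ne_zero (hlb i) (hla i), fun i => ?_, fun τ i j => ?_⟩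
  · rw [div_pow, div_mul_eq_mul_div, hN i, mul_div_assoc, div_self (pow_ne_zero _ (hla i)), mul_one]
  · obtain ⟨κ, hκ, hk⟩ := key_lead D hB hI (hinv τ) (hχ τ) ha hb hab
    have e : ∀ k, τ ((D.base Ω).lead k b / (D.base Ω).lead k a) =
        κ * (D.base Ω).ζ ^ χ τ k * ((D.base Ω).lead k b / (D.base Ω).lead k a) := by
      intro k
      have hta : τ ((D.base Ω).lead k a) ≠ 0 := (_root_.map_ne_zero _).2 (hla k)
      rw [map_div₀, div_eq_iff hta, mul_div_assoc', div_mul_eq_mul_div, eq_div_iff (hla k), ← hk k]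
      ring
    rw [e i, e j]
    ring

end Pool.Agent.Q211.SX
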