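import Pool.Agent.Q269.SX.St

set_option autoImplicit false
set_option linter.all false

open scoped Classical
open Polynomial IsDedekindDomain Finset

namespace Pool.Agent.Q211.SX

open Pool.Agent.Q269.SX
open Pool.Agent.Y164.HG
open Pool.Agent.Y713.SE (hp Pw cl)
open Pool.Agent.Y713.SE.Dat (au rs)
open Pool.Agent.Y164.PS (L ch el Fam)
open Pool.Agent.Q269.SL (BoundedBy RepV)

section
variable {k K : Type} [Field k] [Fintype k] [Field K] [Algebra k[X] K] [IsFractionRing k[X] K]

/-- a constant times even powers which is a square has a square constant -/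
lemma ch_of_sq {κ : Type} [Fintype κ] {R : κ → k[X]} (hR : Fam R) {d : K} {c : F2}
    {u : κ → F2} (h : IsRep R d c u) (hu : ∀ x, u x = 0) {z : K} (hz : d = z ^ 2) : c = 0 := by
  obtain ⟨r, m, y, hr, hy, hc, hm, he⟩ := h
  have hm2 : ∀ x, ∃ t, m x = t + t := by
    intro x
    have h1 := hm x
    rw [hu x] at h1
    have h2 : Even (m x) := (ZMod.natCast_eq_zero_iff_even).1 h1
    exact h2
  choose t ht using hm2
  have hinj : Function.Injective (algebraMap k[X] K) := IsFractionRing.injective k[X] K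
  set P : k[X] := ∏ x, R x ^ t x with hP
  have hP0 : P ≠ 0 := prod_ne_zero_iff.2 fun x _ => pow_ne_zero _ (hR.irr x).ne_zero
  have hel : el R r m = C r * P ^ 2 := by
    rw [el, hP, ← prod_pow]
    congr 1
    exact prod_congr rfl fun x _ => by rw [ht x, ← pow_mul, mul_two]
  have hPK : algebraMap k[X] K P ≠ 0 := (map_ne_zero_iff _ hinj).2 hP0
  have h1 : (z / (algebraMap k[X] K P * y)) ^ 2 = algebraMap k[X] K (C r) := by
    rw [div_pow, ← hz, he, hel, map_mul, map_pow, mul_pow]
    field_simp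
  have h2 : IsIntegral k[X] ((z / (algebraMap k[X] K P * y)) ^ 2) := by
    rw [h1]; exact isIntegral_algebraMap
  obtain ⟨g, hg⟩ := IsIntegrallyClosed.exists_algebraMap_eq_of_isIntegral_pow two_pos h2
  rw [← hg, ← map_pow] at h1
  have h3 : g ^ 2 = C r := hinj h1
  have h4 : g.natDegree = 0 := by
    have := congrArg natDegree h3
    rw [natDegree_pow, natDegree_C] at this
    omega
  obtain ⟨s, hs⟩ := natDegree_eq_zero.1 h4
  rw [← hs, ← C_pow] at h3
  have h5 := C_injective h3
  rw [← hc, Pool.Agent.Y164.PS.ch_eq_zero_iff hr]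
  exact ⟨s, by rw [← h5, pow_two]⟩

end

theorem t_RPU (hREP : S_REP) : S_RPU := by
  intro k K _ _ _ _ _ n a N H ι _ T _ hR D0 hδ he E _ _ _ χ χ' w w' x0 x0' hr hr'
  obtain ⟨rA, rB, rC, rD⟩ := hREP k K (ι ⊕ Tau a) (RR a T) hR H.hk
  obtain ⟨kd, mi, hmi0, hmir, hrep⟩ := RepV.mul H hr hr'
  have hmod : ∀ a b c d : ℕ, a + b ≡ c + d [MOD 2] ↔ a + d ≡ c + b [MOD 2] := by
    intro a b c d
    unfold Nat.ModEq
    omega
  constructor
  · intro hcl
    -- the Kummer data are squares
    have hsq : ∀ i j, ∃ z : K, mi i * mi j = z ^ 2 := by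
      intro i j
      obtain ⟨z, hz0, e⟩ := hmir i j
      have hfix : ∀ σ : E ≃ₐ[K] E, σ (kd.θ i j) = kd.θ i j := by
        intro σ
        have h1 := (D0.base E).PT_indep (hcl σ) i j
        have h2 : χ σ i + χ' σ i ≡ χ σ j + χ' σ j [MOD 2] := (hmod _ _ _ _).1 h1
        have h3 := kd.hθ σ i j
        have h4 := (D0.base E).ζ_pow_of_modEq h2
        change (D0.base E).ζ ^ (χ σ j + χ' σ j) * σ (kd.θ i j) =
          (D0.base E).ζ ^ (χ σ i + χ' σ i) * kd.θ i j at h3
        rw [h4] at h3
        exact mul_left_cancel₀ (pow_ne_zero _ (D0.base E).ζ_ne) h3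
      obtain ⟨x, hx⟩ := (InfiniteGalois.mem_range_algebraMap_iff_fixed (kd.θ i j)).2 hfix
      have h1 : kd.d i j = x ^ 2 := by
        apply (algebraMap K E).injective
        rw [← kd.hd, ← hx, map_pow]
      exact ⟨z * x, by rw [e, h1, mul_pow]⟩
    have hw0 : ∀ i j x, uu H.p H.q (w + w') i x + uu H.p H.q (w + w') j x = 0 := by
      intro i j x
      obtain ⟨z, hz⟩ := hsq i j
      refine rA _ _ _ ((hrep i).mul (hrep j)) x ?_
      rw [hz, map_pow]
      exact Pw.pow _
    have hww : w + w' = 0 := by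
      apply Prod.ext
      · funext y
        apply Subtype.ext
        exact const_zero H.hn ((w + w').1 y).1 ((w + w').1 y).2 fun i j => hw0 i j (Sum.inl y)
      · funext s
        obtain ⟨l, hl1, hl2⟩ := third H (H.p s) (H.q s)
        have h1 := hw0 (H.p s) l (Sum.inr s)
        have hpq : H.q s ≠ H.p s := (ne_of_lt (H.lt s)).symm
        have h2 : uu H.p H.q (w + w') (H.p s) (Sum.inr s) =
            (w + w').2 s * e2 (H.p s) (H.q s) (H.p s) := rfl
        have h3 : uu H.p H.q (w + w') l (Sum.inr s) = (w + w').2 s * e2 (H.p s) (H.q s) l := rfl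
        rw [h2, h3, e2, e2, if_pos rfl, if_neg hpq, if_neg (Ne.symm hl1), if_neg (Ne.symm hl2),
          add_zero, add_zero, mul_one, mul_zero, add_zero] at h1
        exact h1
    have hxx : x0 + x0' = 0 := by
      apply Subtype.ext
      refine const_zero H.hn (x0 + x0').1 (x0 + x0').2 fun i j => ?_
      obtain ⟨z, hz⟩ := hsq i j
      exact ch_of_sq hR ((hrep i).mul (hrep j)) (fun x => hw0 i j x) hz
    constructor
    · calc w = w + (w' + w') := by rw [Pool.Agent.Q269.SL.V_add_self, add_zero]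
        _ = (w + w') + w' := by rw [add_assoc]
        _ = w' := by rw [hww, zero_add]
    · calc x0 = x0 + (x0' + x0') := by rw [W_add_self, add_zero]
        _ = (x0 + x0') + x0' := by rw [add_assoc]
        _ = x0' := by rw [hxx, zero_add]
  · rintro ⟨rfl, rfl⟩ σ
    have h0 : w + w = 0 := Pool.Agent.Q269.SL.V_add_self w
    have h0' : x0 + x0 = 0 := W_add_self x0
    rw [h0, h0'] at hrep
    have hone : ∀ i, IsRep (RR a T) (mi i) 0 0 := by
      intro i
      refine (hrep i).congr rfl ?_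
      rintro (x | s)
      · rfl
      · show (0 : F2) * _ = 0
        rw [zero_mul]
    have hmod2 : ∀ i j, χ σ i + χ' σ i ≡ χ σ j + χ' σ j [MOD 2] := by
      intro i j
      obtain ⟨z, hz⟩ := rC _ (((hone i).mul (hone j)).congr (add_zero 0) fun _ => add_zero 0)
      obtain ⟨z', hz'0, e⟩ := hmir i j
      have h1 : kd.d i j = (z / z') ^ 2 := by
        rw [div_pow, ← hz, e, mul_comm, mul_div_assoc, div_self (pow_ne_zero _ hz'0), mul_one]
      exact D0.modEq_of_pow kd h1 σ
    have h1 : cl ((D0.base E).PT (fun i => χ σ i + χ' σ i)) = 1 :=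
      Pool.Agent.Y713.SE.Dat.cl_PT_of_modEq (D0.base E) hmod2
    rw [Pool.Agent.Q269.SL.cl_PT_add] at h1
    have h2 : cl ((D0.base E).PT (χ' σ)) * cl ((D0.base E).PT (χ' σ)) = 1 := by
      rw [← Pool.Agent.Q269.SL.cl_PT_add]
      apply Pool.Agent.Y713.SE.Dat.cl_PT_of_modEq (D0.base E)
      intro i j
      unfold Nat.ModEq
      omega
    calc cl ((D0.base E).PT (χ σ)) = cl ((D0.base E).PT (χ σ)) *
          (cl ((D0.base E).PT (χ' σ)) * cl ((D0.base E).PT (χ' σ))) := by rw [h2, mul_one]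
      _ = _ := by rw [← mul_assoc, h1, one_mul]

end Pool.Agent.Q211.SX
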