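import Pool.Agent.Q269.SX.St

set_option autoImplicit false
set_option linter.all false

open scoped Classical
open Polynomial IsDedekindDomain Finset

namespace Pool.Agent.Q211.SX

open Pool.Agent.Q269.SX
open Pool.Agent.Y713.SE (hp Pw cl cl_mul cl_top cl_eq_iff exists_cl)
open Pool.Agent.Y713.SE.Dat (au rs)

/-- classes of two families which agree modulo `ℓ` up to a constant -/
lemma cl_PT_congr {ℓ n : ℕ} {E : Type} [Field E] (D : SD ℓ n E) {m m' : Fin n → ℕ}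
    (h : ∀ i j, m i + m' j ≡ m j + m' i [MOD ℓ]) : cl (D.PT m) = cl (D.PT m') := by
  have h1 : cl (D.PT (fun i => m i + (ℓ - 1) * m' i)) = 1 := by
    apply Pool.Agent.Y713.SE.Dat.cl_PT_of_modEq
    intro i j
    have hk : ∀ x : ℕ, x + (ℓ - 1) * x = ℓ * x := by
      intro x
      have := D.pos
      obtain ⟨k, rfl⟩ : ∃ k, ℓ = k + 1 := ⟨ℓ - 1, (Nat.sub_add_cancel this).symm⟩
      rw [Nat.add_sub_cancel]; ring
    have h2 := h i j
    have h3 : (m' i + m' j) + (m i + (ℓ - 1) * m' i) ≡ (m' i + m' j) + (m j + (ℓ - 1) * m' j)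
        [MOD ℓ] := by
      have e1 : (m' i + m' j) + (m i + (ℓ - 1) * m' i) = (m i + m' j) + ℓ * m' i := by
        rw [← hk (m' i)]; ring
      have e2 : (m' i + m' j) + (m j + (ℓ - 1) * m' j) = (m j + m' i) + ℓ * m' j := by
        rw [← hk (m' j)]; ring
      rw [e1, e2]
      have e3 : ∀ a b : ℕ, a + ℓ * b ≡ a [MOD ℓ] := fun a b => by
        unfold Nat.ModEq
        rw [Nat.add_mul_mod_self_left]
      exact (e3 _ _).trans (h2.trans (e3 _ _).symm)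
    exact Nat.ModEq.add_left_cancel' _ h3
  have h2 : cl (D.PT (fun i => m i + (ℓ - 1) * m' i)) = cl (D.PT m) * (cl (D.PT m')) ^ (ℓ - 1) := by
    rw [D.cl_PT, D.cl_PT, D.cl_PT]
    simp only [pow_add, Finset.prod_mul_distrib, ← Finset.prod_pow]
    congr 1
    exact Finset.prod_congr rfl fun k _ => by rw [mul_comm, pow_mul]
  have h3 : (cl (D.PT m')) ^ ℓ = 1 := by
    rw [D.cl_PT, ← Finset.prod_pow]
    exact Finset.prod_eq_one fun k _ => by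
      rw [← pow_mul, mul_comm, pow_mul, D.cl_PP_pow, one_pow]
  have h4 : (cl (D.PT m')) ^ (ℓ - 1) * cl (D.PT m') = 1 := by
    rw [← pow_succ, Nat.sub_add_cancel D.pos, h3]
  rw [h2] at h1
  calc cl (D.PT m) = cl (D.PT m) * ((cl (D.PT m')) ^ (ℓ - 1) * cl (D.PT m')) := by
        rw [h4, mul_one]
    _ = _ := by rw [← mul_assoc, h1, one_mul]

theorem t_TRV (h : S_KUM) : S_TRV := by
  intro ℓ n K _ D E _ _ _ F Ω _ _ _ _ _ _ _ p _ ι χ kd B hB hinv hU hz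
  obtain ⟨R, χv, ϑ, c, hR, hc, hϑ0, hϑ, hκ⟩ := h ℓ n K D F Ω p B hB hinv hU
  refine ⟨ι, R, fun τ σ hτσ => ?_⟩
  have hζ0 : (D.base Ω).ζ ≠ 0 := (D.base Ω).ζ_ne
  have hζι : ∀ k : ℕ, ι ((D.base E).ζ ^ k) = (D.base Ω).ζ ^ k := by
    intro k
    rw [map_pow]
    congr 1
    exact ι.commutes _
  have hζτ : ∀ k : ℕ, τ ((D.base Ω).ζ ^ k) = (D.base Ω).ζ ^ k := by
    intro k
    rw [map_pow]
    congr 1
    exact (rs K τ).commutes _
  -- the relation of the Kummer classes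
  have key : ∀ i j, (D.base Ω).ζ ^ χ σ j * (τ (ϑ i) * ϑ j) =
      (D.base Ω).ζ ^ χ σ i * (ϑ i * τ (ϑ j)) := by
    intro i j
    obtain ⟨z, hz0, hzz⟩ := hz i j
    have hι0 : ι (kd.θ i j) ≠ 0 := (_root_.map_ne_zero _).2 (kd.h0 i j)
    have hzΩ : algebraMap F Ω z ≠ 0 := (_root_.map_ne_zero _).2 hz0
    have h1 : ι (kd.θ i j) ^ ℓ = algebraMap K Ω (kd.d i j) := by
      rw [← map_pow, kd.hd, AlgHom.commutes]
    rw [← h1] at hzz
    have hi := hϑ i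
    have hj := hϑ j
    have hbi := hU i
    have hbj := hU j
    -- ω = ι θ * ϑ j / (z * ϑ i)
    have h2 : (ι (kd.θ i j) * ϑ j / (algebraMap F Ω z * ϑ i)) ^ ℓ = 1 := by
      rw [div_pow, mul_pow, mul_pow, div_eq_one_iff_eq
        (mul_ne_zero (pow_ne_zero _ hzΩ) (pow_ne_zero _ (hϑ0 i)))]
      apply mul_right_cancel₀ (mul_ne_zero hbi hbj)
      calc ι (kd.θ i j) ^ ℓ * ϑ j ^ ℓ * (((D.base Ω).U B).eval ((D.base Ω).e i) *
            ((D.base Ω).U B).eval ((D.base Ω).e j)) =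
            (ι (kd.θ i j) ^ ℓ * ((D.base Ω).U B).eval ((D.base Ω).e i)) *
              (ϑ j ^ ℓ * ((D.base Ω).U B).eval ((D.base Ω).e j)) := by ring
        _ = (algebraMap F Ω z ^ ℓ * ((D.base Ω).U B).eval ((D.base Ω).e j)) *
              (ϑ i ^ ℓ * ((D.base Ω).U B).eval ((D.base Ω).e i)) := by rw [hzz, hj, hi]
        _ = _ := by ring
    haveI : NeZero ℓ := ⟨D.pos.ne'⟩
    obtain ⟨m, -, hm⟩ := (D.base Ω).hζ.eq_pow_of_pow_eq_one h2
    have h3 : ι (kd.θ i j) * ϑ j = (D.base Ω).ζ ^ m * (algebraMap F Ω z * ϑ i) := by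
      rw [hm, div_mul_cancel₀ _ (mul_ne_zero hzΩ (hϑ0 i))]
    have h4 := congrArg τ h3
    rw [map_mul, map_mul, map_mul, hζτ, AlgEquiv.commutes] at h4
    have h5 := congrArg ι (kd.hθ σ i j)
    rw [map_mul, map_mul, hζι, hζι, ← hτσ] at h5
    -- h5 : ζ^χσj * τ(ι θ) = ζ^χσi * ι θ
    have hne : (D.base Ω).ζ ^ m * algebraMap F Ω z ≠ 0 := mul_ne_zero (pow_ne_zero _ hζ0) hzΩ
    apply mul_left_cancel₀ hne
    calc (D.base Ω).ζ ^ m * algebraMap F Ω z * ((D.base Ω).ζ ^ χ σ j * (τ (ϑ i) * ϑ j)) =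
        (D.base Ω).ζ ^ χ σ j * ((D.base Ω).ζ ^ m * (algebraMap F Ω z * τ (ϑ i))) * ϑ j := by ring
      _ = ((D.base Ω).ζ ^ χ σ j * τ (ι (kd.θ i j))) * τ (ϑ j) * ϑ j := by rw [← h4]; ring
      _ = (D.base Ω).ζ ^ χ σ i * (ι (kd.θ i j) * ϑ j) * τ (ϑ j) := by rw [h5]; ring
      _ = _ := by rw [h3]; ring
  have hmod : ∀ i j, χ σ i + χv τ j ≡ χ σ j + χv τ i [MOD ℓ] := by
    intro i j
    apply (D.base Ω).ζ_modEq
    have h1 := key i j
    have h2 := hκ τ i j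
    have h3 : τ (ϑ i) * ϑ j ≠ 0 := mul_ne_zero ((_root_.map_ne_zero _).2 (hϑ0 i)) (hϑ0 j)
    have h4 : ϑ i * τ (ϑ j) ≠ 0 := mul_ne_zero (hϑ0 i) ((_root_.map_ne_zero _).2 (hϑ0 j))
    generalize τ (ϑ i) * ϑ j = s at *
    generalize ϑ i * τ (ϑ j) = t at *
    -- h1 : ζ^χσj s = ζ^χσi t ; h2 : ζ^χvj s = ζ^χvi t
    rw [pow_add, pow_add]
    apply mul_right_cancel₀ (mul_ne_zero h3 h4)
    calc (D.base Ω).ζ ^ χ σ i * (D.base Ω).ζ ^ χv τ j * (s * t) =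
        ((D.base Ω).ζ ^ χ σ i * t) * ((D.base Ω).ζ ^ χv τ j * s) := by ring
      _ = ((D.base Ω).ζ ^ χ σ j * s) * ((D.base Ω).ζ ^ χv τ i * t) := by rw [← h1, h2]
      _ = _ := by ring
  show D.mC ι (cl ((D.base E).PT (χ σ))) = _
  rw [D.mC_PT, hR τ, cl_PT_congr (D.base Ω) hmod, mul_div_cancel_left]

end Pool.Agent.Q211.SX
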